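import Mathlib
import Pool.Agent.Helper33_ct.Thms
import Pool.Agent.Helper33_ct.Family

/-!
# The noncommutative Tate conjecture for tensor products with abelian varieties with dominating slopes

Let `K i` (`i` in a finite set) be CM fields, and let `π i` be Weil numbers for `q = p ^ a` in `K i`,
`π i * conj (π i) = q`. We suppose:

* each `π i` is of dominant type (the new case), of pair type or of flip type. Dominant type: let
  `w τ = 2 v (τ (π i)) - a` be the normalised valuations, `τ` running through the embeddings of `K i`
  in the algebraic closure of the `p`-adic numbers; there is `τ₀` with `w τ₀ ≠ 0` such that the
  sum of all `|w τ|` is less than `4 |w τ₀|`, or it is equal to `4 |w τ₀|` and `π i` is not of norm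
  type: there is no subfield `E` of `K i`, different from `K i` and not totally real, such that for
  every embedding of `E` the sum of the `w τ` over its extensions `τ` to `K i` is zero. There is no
  condition on the Galois group, the degree and the ramification of `K i`. For instance
  (commutative endomorphism algebra) the slopes are `0` and `1` once and `1/2` otherwise, or they are
  `0` and `1` twice, `1/2` otherwise, and `π i` is not of norm type;
* for `i ≠ j` embeddings of `K i` and `K j` are cross flipped: some automorphism of the complex
  numbers fixes one and conjugates the other (this is no condition if there is only one field).

Let `f i` be monic polynomials whose complex roots are conjugates of `π i`, for instance the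
characteristic polynomials of Frobenius of the abelian varieties in the isogeny classes of the `π i`
over the field with `q` elements. Let `A` be an abelian variety over the field with `Q = q ^ s`
elements which is isogenous to a product of powers of abelian varieties coming from the field with
`q` elements, with characteristic polynomials `f i`, and let `Z` be **any** smooth projective variety
over the field with `Q` elements such that the eigenvalues `ρ` of Frobenius on the cohomology of `Z`
and their conjugates are independent of the fields `K i` (`Independent`): for each embedding `ψ` of
`K i` some automorphism of `ℂ` which fixes a power of `ρ` is the complex conjugation on `ψ (K i)`: for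
instance, if a power of `ρ` lies in a field linearly disjoint from the normal closures of the `K i`,
or in a totally real field (all varieties `Z` with supersingular cohomology, cellular
varieties, ...).

Let `𝒜` be a smooth proper dg category whose noncommutative motive with rational coefficients is a
direct summand of the one of `Z`, for instance the category of perfect complexes on `Z`, or a
component of a semi-orthogonal decomposition of it. It is given by an idempotent `e` in the ring
`K_0(Z × Z)_ℚ`, which is identified with `CH(Z × Z)_ℚ` (all degrees together) by the Chern
character multiplied by the square root of the Todd class. The noncommutative motive of the dg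
category `perf(A) ⊗ 𝒜` is `(A × Z, 1 × e)`.

There are finitely many products `D j` of divisors on `A` such that the Kunneth formula holds for the
Frobenius invariants in the cohomology of `perf(A) ⊗ 𝒜`, and **the noncommutative Tate conjecture for
`perf(A) ⊗ 𝒜` is equivalent to the one for `𝒜`** (all invariants are linear combinations of classes of
elements of `K_0`; this is the form of the conjecture of the question which, by Thomason, is
equivalent to the one with `K(1)`-local `K`-theory; as all `s` are allowed this concerns all finite
extensions).

The framework (`TheoryData`, `IsChow`, `IsWeil`) is the one of the starting files of helper492 and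
helper1: the Chow groups `C` with their pull-backs, push-forwards and products, and a Weil cohomology
theory `H` with coefficients in an algebraically closed field, on a class `𝒱` of smooth proper
varieties over `k`. The Frobenius endomorphism acts on `CH^i(A × Z)_ℚ` as multiplication by `Q ^ i`.
-/

set_option autoImplicit false

namespace Pool.Agent.Results.MP_de89cc_ag.DominantTensor

open NumberField Polynomial Pool.Agent.Y1.CT Pool.Agent.H194R3.Tate Pool.Agent.Helper33Dom

theorem result (p : ℕ) [Fact p.Prime] (a : ℕ) (ha : 0 < a) {I : Type} [Fintype I]
    (K : I → Type) [∀ i, Field (K i)] [∀ i, NumberField (K i)] [∀ i, IsCMField (K i)]
    (π : ∀ i, K i) (hweil : ∀ i, π i * IsCMField.complexConj (K i) (π i) = (p : K i) ^ a)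
    (hπ : ∀ i, DominantType p a (π i) ∨ PairType p a (π i) ∨ FlipType p a (π i))
    (hcross : ∀ i j, i ≠ j → ∀ (φ : K i →+* ℂ) (ψ : K j →+* ℂ), CrossFlipped φ ψ)
    (f : I → ℤ[X]) (hf : ∀ i, IsPolyOf (π i) (f i)) : NCTateTimes K (p ^ a) f :=
  Pool.Agent.Helper33Ct.ncTateTimes (Nat.one_lt_pow ha.ne' (Fact.out : p.Prime).one_lt)
    (Pool.Agent.Helper33Ct.noRel_independent ha π hweil hπ hcross f hf)

end Pool.Agent.Results.MP_de89cc_ag.DominantTensor
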